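import Pool.Agent.H.MP_3d11e1_an.D

set_option autoImplicit false
open Filter
open scoped ContDiff

namespace Pool.Agent.Results.MP_3d11e1_an.No

/-- The cylindrical transformation `(x, t) ↦ (x + α, t + φ x)` as a bijection. -/
def cyl {d : ℕ} (α : UnitAddTorus (Fin d)) (φ : UnitAddTorus (Fin d) → ℝ) :
    Equiv.Perm (UnitAddTorus (Fin d) × ℝ) where
  toFun p := (p.1 + α, p.2 + φ p.1)
  invFun p := (p.1 - α, p.2 - φ (p.1 - α))
  left_inv p := by simp
  right_inv p := by simp

open Pool.Agent.H.MP_3d11e1_an Finset UnitAddTorus MeasureTheory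

theorem result (d : ℕ) (hd : 1 ≤ d) (α : UnitAddTorus (Fin d)) (φ : UnitAddTorus (Fin d) → ℝ)
    (hφ : ContDiff ℝ ∞ fun y : Fin d → ℝ => φ fun i => (y i : UnitAddCircle))
    (htrans : ∃ p, DenseRange fun n : ℤ => (cyl α φ ^ n) p) (q : UnitAddTorus (Fin d) × ℝ) :
    ¬ Tendsto (fun n : ℕ => |((cyl α φ ^ n) q).2|) atTop atTop := by
  obtain ⟨p, hp⟩ := htrans
  have h : Sm fun z => (φ z : ℂ) := Complex.ofRealCLM.contDiff.comp hφ
  have it : ∀ (n : ℕ) q, (cyl α φ ^ n) q =
      (q.1 + n • α, q.2 + ∑ j ∈ range n, φ (q.1 + j • α)) := fun n q => by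
    induction n with
    | zero => simp
    | succ n ih =>
      rw [pow_succ', Equiv.Perm.mul_apply, ih, sum_range_succ, succ_nsmul]; simp [cyl, add_assoc]
  have ng : ∀ n : ℕ, (cyl α φ ^ n) ((cyl α φ ^ (-(n : ℤ))) p) = p := fun n => by
    rw [← Equiv.Perm.mul_apply, ← zpow_natCast, ← zpow_add]; simp
  have hα : ∀ k ≠ 0, mFourier k α ≠ 1 := fun k hk h1 => by
    have a : ∀ z : UnitAddTorus (Fin d) × ℝ, mFourier k z.1 = mFourier k p.1 := fun z =>
      hp.induction_on z (isClosed_eq (by fun_prop) continuous_const) fun n => by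
        obtain ⟨n, rfl | rfl⟩ := n.eq_nat_or_neg
        · simp [it, mf_add, mf_nsmul, h1]
        · conv_rhs => rw [← ng n, it]
          simp [mf_add, mf_nsmul, h1]
    obtain ⟨i, hi⟩ := Function.ne_iff.1 hk
    have hi' : (k i : ℂ) ≠ 0 := Int.cast_ne_zero.2 hi
    have b := (a (pr (Pi.single i (1 / (2 * k i) : ℝ)), 0)).trans (a (pr (Pi.single i 0), 0)).symm
    rw [mf_single, mf_single, show 2 * Real.pi * Complex.I * k i * ((1 / (2 * k i) : ℝ) : ℂ) =
      Real.pi * Complex.I by push_cast; field_simp, Complex.exp_pi_mul_I] at b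
    norm_num at b
  have h0 : (mFourierCoeff (fun z => (φ z : ℂ)) 0).re = 0 := by
    by_contra hh
    obtain ⟨c, B, c0, hc⟩ := drift h hα hh
    simp only [Complex.ofReal_re] at hc
    obtain ⟨N, hN⟩ := exists_nat_ge ((B + 1) / c)
    rw [div_le_iff₀ c0] at hN
    have fin := (Set.finite_Icc (-(N : ℤ)) N).image fun n => ((cyl α φ ^ n) p).2
    obtain ⟨n, n1, n2⟩ := (Prod.snd_surjective.denseRange.comp hp continuous_snd : DenseRange
      fun n : ℤ => ((cyl α φ ^ n) p).2).exists_mem_open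
      (isOpen_Ioo.sdiff fin.isClosed) ((Set.Ioo_infinite (show p.2 - 1 < p.2 + 1 by linarith)).sdiff
        fin).nonempty
    refine n2 ⟨n, ?_, rfl⟩
    rw [Function.comp_apply] at n1
    have key : ∀ m : ℕ, m * c - B < 1 → m ≤ N := fun m hm => by
      have : (m : ℝ) < N := lt_of_mul_lt_mul_right (by linarith) c0.le
      exact_mod_cast this.le
    obtain ⟨n, rfl | rfl⟩ := n.eq_nat_or_neg
    · have := key n ((hc p.1 n).trans_lt (by
        simp only [zpow_natCast, it, Set.mem_Ioo] at n1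
        exact abs_lt.2 ⟨by linarith, by linarith⟩))
      constructor <;> omega
    · have e := congrArg Prod.snd (ng n)
      rw [it] at e
      have := key n ((hc ((cyl α φ ^ (-(n : ℤ))) p).1 n).trans_lt
        (abs_lt.2 ⟨by linarith [n1.1, n1.2], by linarith [n1.1, n1.2]⟩))
      constructor <;> omega
  intro ht
  obtain ⟨M, hM⟩ := isCompact_univ.exists_bound_of_continuousOn h.cont.continuousOn
  have ht' : Tendsto (fun n : ℕ => |∑ j ∈ range n, φ (q.1 + j • α)|) atTop atTop :=
    tendsto_atTop_mono (fun n => by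
      rw [it]; linarith [abs_add_le q.2 (∑ j ∈ range n, φ (q.1 + j • α))])
      (tendsto_atTop_add_const_right _ (-|q.2|) ht)
  obtain ⟨m, a | a⟩ := sign (M := M) (fun n => by simpa [sum_range_succ] using hM _ trivial) ht'
  · exact noesc hd h hα h0 q.1 m a
  · refine noesc hd (ψ := fun z => -(φ z : ℂ)) h.neg hα ?_ q.1 m (by simpa using a)
    rw [co_def] at h0 ⊢
    simpa [integral_neg] using h0

end Pool.Agent.Results.MP_3d11e1_an.No
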